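import Pool.Agent.H.MP_7ad892_an.C

namespace Pool.Agent.Results.MP_7ad892_an.Yes

open Set Filter Topology Pool.Agent.H.MP_7ad892_an
open scoped ZeroAtInfty

variable {Ω : Type} [TopologicalSpace Ω]

/-- `(π, t)` is a Toeplitz representation in the C*-algebra `B` of the correspondence
`X = C₀(Ω)` of `σ`: `t (f · F) = π f * t F` for the left action `(f · F)(x) = f (σ x) F x`, and
`(t F)* (t G) = π ⟨F | G⟩`. -/
def IsToeplitz (σ : Ω → Ω) {B : Type} [NonUnitalCStarAlgebra B] (π : C₀(Ω, ℂ) →⋆ₙₐ[ℂ] B)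
    (t : C₀(Ω, ℂ) →ₗ[ℂ] B) : Prop :=
  (∀ f F H : C₀(Ω, ℂ), (∀ x, H x = f (σ x) * F x) → t H = π f * t F) ∧
    ∀ F G : C₀(Ω, ℂ), star (t F) * t G = π (star F * G)

/-- Universal Toeplitz representation: every Toeplitz representation factors through it. -/
def IsUniversal (σ : Ω → Ω) {B : Type} [NonUnitalCStarAlgebra B] (π : C₀(Ω, ℂ) →⋆ₙₐ[ℂ] B)
    (t : C₀(Ω, ℂ) →ₗ[ℂ] B) : Prop :=
  IsToeplitz σ π t ∧ ∀ (B' : Type) [NonUnitalCStarAlgebra B'] (π' : C₀(Ω, ℂ) →⋆ₙₐ[ℂ] B')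
    (t' : C₀(Ω, ℂ) →ₗ[ℂ] B'), IsToeplitz σ π' t' →
      ∃ φ : B →⋆ₙₐ[ℂ] B', (∀ f, φ (π f) = π' f) ∧ ∀ F, φ (t F) = t' F

/-- The tensor algebra: the norm-closed subalgebra generated by the ranges of `π` and `t`. -/
def tensorAlg {B : Type} [NonUnitalCStarAlgebra B] (π : C₀(Ω, ℂ) →⋆ₙₐ[ℂ] B)
    (t : C₀(Ω, ℂ) →ₗ[ℂ] B) : NonUnitalSubalgebra ℂ B :=
  (NonUnitalAlgebra.adjoin ℂ (range π ∪ range t)).topologicalClosure

/-- A bounded linear map is a derivation. -/
def IsDer {A : Type} [NonUnitalRing A] [Module ℂ A] [TopologicalSpace A] (δ : A →L[ℂ] A) : Prop :=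
  ∀ a b, δ (a * b) = δ a * b + a * δ b

/-- A bounded linear map is an approximately local derivation. -/
def IsApproxLocalDer {A : Type} [NonUnitalRing A] [Module ℂ A] [TopologicalSpace A]
    (δ : A →L[ℂ] A) : Prop :=
  ∀ a, ∃ D : ℕ → A →L[ℂ] A, (∀ n, IsDer (D n)) ∧ Tendsto (fun n => D n a) atTop (𝓝 (δ a))

theorem result [T2Space Ω] [LocallyCompactSpace Ω] (σ : Ω → Ω) (hσ : IsProperMap σ)
    (B : Type) [NonUnitalCStarAlgebra B] (π : C₀(Ω, ℂ) →⋆ₙₐ[ℂ] B) (t : C₀(Ω, ℂ) →ₗ[ℂ] B)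
    (h : IsUniversal σ π t) (δ : tensorAlg π t →L[ℂ] tensorAlg π t) (hδ : IsApproxLocalDer δ) :
    IsDer δ := by
  have ht : Toep σ π t := h.1
  choose ρ ρ1 ρ2 using fun x => h.2 _ (Wp σ x) (Wl σ x 1) (toepW σ x)
  have hρ : ∀ x {n a G}, HB σ π t n a G → ρ x a = W σ x n G := fun x _ _ _ hh =>
    HB.map (T := W σ x) (ρ1 x) (fun n F G G' e => by
      rw [ρ2]; exact (Wmul σ x (k := 1) e).symm)
      (fun n r G G' => by
        have := (Wl σ x n).map_sub G (r • G')
        rwa [map_smul] at this) hh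
  have hg : ∀ θ : AddCircle (1 : ℝ), IsToeplitz σ π (fourier 1 θ • t) := fun θ =>
    ⟨fun f F H e => by
      rw [LinearMap.smul_apply, LinearMap.smul_apply, ht.1 f F H e, mul_smul_comm], fun F G => by
      rw [LinearMap.smul_apply, LinearMap.smul_apply, star_smul, smul_mul_smul_comm, ht.2,
        Complex.star_def, ← fourier_neg, ← fourier_add]
      simp⟩
  choose γ γ1 γ2 using fun θ => h.2 _ _ _ (hg θ)
  let e0 : L2 := lp.single 2 0 1
  have hb : ∀ n x a, ‖ρ x a e0 n‖ ≤ ‖a‖ := fun n x a =>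
    (lp.norm_apply_le_norm two_ne_zero _ n).trans (((ρ x a).le_opNorm _).trans (by
      rw [lp.norm_single two_pos, norm_one, mul_one]
      exact NonUnitalStarAlgHom.norm_apply_le _ _))
  let c : ℕ → Ω → B →L[ℂ] ℂ := fun n x => LinearMap.mkContinuous
    { toFun := fun a => ρ x a e0 n
      map_add' := fun a b => by simp
      map_smul' := fun r a => by simp } 1 fun a => by simpa using hb n x a
  have hc : ∀ n x a, c n x a = ρ x a e0 n := fun _ _ _ => rfl
  have cH : ∀ {n a G}, HB σ π t n a G → ∀ k y, c k y a = if k = n then G y else 0 := by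
    intro n a G hh k y
    rw [hc, hρ y hh]
    rcases lt_or_ge k n with h | h
    · rw [W2 σ y n G _ k h, if_neg h.ne]
    · obtain ⟨i, rfl⟩ := Nat.exists_eq_add_of_le' h
      rw [W1]
      by_cases hi : i = 0
      · simp [hi, e0]
      · simp [hi, e0, lp.single_apply]
  have hm : ∀ {n a G}, HB σ π t n a G → a ∈ tensorAlg π t := fun hh => subset_closure hh.mem
  let ι : tensorAlg π t →L[ℂ] B := (tensorAlg π t).toSubmodule.subtypeL
  letI : NormedSpace ℂ (tensorAlg π t) := ⟨fun r a => norm_smul_le r (a : B)⟩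
  let d : Dat σ (tensorAlg π t) :=
    { H := fun n a G => HB σ π t n a G
      c := fun n x => (c n x).comp ι
      p := fun f => ⟨π f, hm (HB.p f)⟩
      hp := fun f => HB.p f
      ht := fun {n a G} F hh => by
        obtain ⟨G', e⟩ := ex_cmp hσ F G n
        exact ⟨⟨_, hm (HB.tm F G' hh e)⟩, G', HB.tm F G' hh e, e⟩
      hmul := fun {n a G m b G'} h1 h2 => by
        obtain ⟨G'', e⟩ := ex_cmp hσ G G' m
        exact ⟨G'', h1.mul hσ ht h2 G'' e, e⟩
      hsub := fun r h1 h2 => HB.sub r h1 h2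
      hnorm := fun hh => nle (HB.inner hσ ht _ hh hh)
      dense := fun a => by
        rw [closure_subtype]
        refine closure_mono (fun b hb => ?_) (gen_le hσ ht a.2)
        refine Submodule.span_induction (p := fun b _ => b ∈ Subtype.val ''
          (Submodule.span ℂ {a : tensorAlg π t | ∃ n G, HB σ π t n a G} : Set (tensorAlg π t)))
          ?_ ⟨0, Submodule.zero_mem _, rfl⟩ ?_ ?_ hb
        · rintro b ⟨n, G, hh⟩
          exact ⟨⟨b, hm hh⟩, Submodule.subset_span ⟨n, G, hh⟩, rfl⟩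
        · rintro _ _ _ _ ⟨x, hx, rfl⟩ ⟨y, hy, rfl⟩
          exact ⟨x + y, Submodule.add_mem _ hx hy, rfl⟩
        · rintro r _ _ ⟨x, hx, rfl⟩
          exact ⟨r • x, Submodule.smul_mem _ _ hx, rfl⟩
      cle := fun n x a => hb n x a
      cH := fun hh => cH hh
      cmul := fun {n a G} hh b m y => by
        change ρ y (a * b) e0 (m + n) = G (σ^[m] y) * ρ y b e0 m
        rw [map_mul, hρ y hh, ContinuousLinearMap.mul_apply, W1]
      cmul0 := fun {n a G} hh b k y hk => by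
        change ρ y (a * b) e0 k = 0
        rw [map_mul, hρ y hh, ContinuousLinearMap.mul_apply, W2 σ y n G _ k hk]
      sep := fun a h0 => Subtype.ext (sepB hσ ht c hb cH γ
        (fun θ _ _ _ hh => hh.gauge (γ1 θ) (γ2 θ)) (gen_le hσ ht a.2) h0) }
  exact d.main δ hδ

end Pool.Agent.Results.MP_7ad892_an.Yes
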